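import Pool.Agent.TH682.LP.Inst

/-!
# Sets given by `k`-CNFs can be learned from positive examples
-/

set_option autoImplicit false

namespace Pool.Agent.TH682.LP

open Pool.Agent.NPC Pool.Agent.H579R2.Spt
open Pool.Agent.TH684.EX (poly_of_polyTime)

/-- Tuples of `k` positions in the list `s`. -/
def tup (s : List ℕ) : ℕ → List (List ℕ)
  | 0 => [[]]
  | k + 1 => (tup s k).flatMap fun t => s.map fun i => i :: t

theorem mem_tup {s : List ℕ} : ∀ {k : ℕ} {t : List ℕ}, t ∈ tup s k ↔ t.length = k ∧ ∀ i ∈ t, i ∈ s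
  | 0, t => by
    unfold tup
    rw [List.mem_singleton, List.length_eq_zero_iff]
    constructor
    · rintro rfl
      simp
    · exact fun h => h.1
  | k + 1, t => by
    unfold tup
    simp only [List.mem_flatMap, List.mem_map]
    constructor
    · rintro ⟨u, hu, i, hi, rfl⟩
      obtain ⟨h1, h2⟩ := mem_tup.1 hu
      refine ⟨by rw [List.length_cons, h1], fun j hj => ?_⟩
      rcases List.mem_cons.1 hj with rfl | hj
      · exact hi
      · exact h2 j hj
    · rintro ⟨h1, h2⟩
      cases t with
      | nil => simp at h1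
      | cons i u =>
        exact ⟨u, mem_tup.2 ⟨by simpa using h1, fun j hj => h2 j (List.mem_cons_of_mem _ hj)⟩, i,
          h2 i List.mem_cons_self, rfl⟩

theorem tup_poly {α : Type} [TEnc α] {s : α → List ℕ} (hs : Poly s) :
    ∀ k : ℕ, Poly (fun a => tup (s a) k)
  | 0 => NPC.Poly.const _
  | k + 1 => by
    refine NPC.Poly.flatMap (l := fun a => tup (s a) k)
      (F := fun a t => (s a).map fun i => i :: t) (tup_poly hs k) ?_
    exact NPC.Poly.map (l := fun p : α × List ℕ => s p.1) (F := fun p i => i :: p.2)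
      (hs.comp (NPC.Poly.fst NPC.Poly.id)) (NPC.Poly.cons (NPC.Poly.snd NPC.Poly.id)
        (NPC.Poly.snd (NPC.Poly.fst NPC.Poly.id)))

theorem tup_length (s : List ℕ) : ∀ k : ℕ, (tup s k).length = s.length ^ k
  | 0 => rfl
  | k + 1 => by
    unfold tup
    rw [List.length_flatMap]
    simp [tup_length s k, pow_succ]

/-- The restriction to a tuple of positions. -/
def res (x : List Bool) (t : List ℕ) : List Bool := t.map fun i => x.getD i false

/-- The prediction: on every tuple of `k` positions `x` agrees with some example. -/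
def kB (k : ℕ) (l : List (List Bool)) (x : List Bool) : Bool :=
  (tup (List.range (x.length + 1)) k).all fun t => l.any fun a => decide (res a t = res x t)

/-- The learner. -/
def cK (k : ℕ) (z : List Bool) : List Bool := [kB k (dl z).1 (dl z).2]

theorem res_poly {α : Type} [TEnc α] {x : α → List Bool} {t : α → List ℕ} (hx : Poly x)
    (ht : Poly t) : Poly (fun a => res (x a) (t a)) :=
  NPC.Poly.map (l := t) (F := fun a i => (x a).getD i false) ht
    (NPC.Poly.getD (hx.comp (NPC.Poly.fst NPC.Poly.id)) (NPC.Poly.snd NPC.Poly.id)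
      (NPC.Poly.const false))

theorem cK_poly (k : ℕ) : Poly (cK k) := by
  have e1 : Poly (fun d : List (List Bool) × List Bool => d.1) := NPC.Poly.fst NPC.Poly.id
  have e2 : Poly (fun d : List (List Bool) × List Bool => d.2) := NPC.Poly.snd NPC.Poly.id
  have e3 : Poly (fun d : List (List Bool) × List Bool => List.range (d.2.length + 1)) :=
    ((UPoly.length e2).add (UPoly.const 1)).range
  refine NPC.Poly.cons (NPC.Poly.comp (g := fun d : List (List Bool) × List Bool =>
    kB k d.1 d.2) ?_ dl_poly) (NPC.Poly.const [])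
  refine NPC.Poly.all (l := fun d : List (List Bool) × List Bool =>
    tup (List.range (d.2.length + 1)) k)
    (p := fun d t => d.1.any fun a => decide (res a t = res d.2 t)) (tup_poly e3 k) ?_
  refine NPC.Poly.any (l := fun q : (List (List Bool) × List Bool) × List ℕ => q.1.1)
    (p := fun q a => decide (res a q.2 = res q.1.2 q.2))
    (e1.comp (NPC.Poly.fst NPC.Poly.id)) ?_
  have e4 : Poly (fun r : ((List (List Bool) × List Bool) × List ℕ) × List Bool => r.1.2) :=
    NPC.Poly.snd (NPC.Poly.fst NPC.Poly.id)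
  have e5 : Poly (fun r : ((List (List Bool) × List Bool) × List ℕ) × List Bool => r.1.1.2) :=
    e2.comp (NPC.Poly.fst (NPC.Poly.fst NPC.Poly.id))
  exact NPC.Poly.decide_eq (res_poly (NPC.Poly.snd NPC.Poly.id) e4) (res_poly e5 e4)

/-- The set `A` is given by `k`-CNFs: for every `n` the strings of length `n` in `A` are those that
satisfy a set of clauses with at most `k` literals; a clause is a list of pairs (position, value). -/
def IsKCnf (k : ℕ) (A : Set (List Bool)) : Prop :=
  ∀ n : ℕ, ∃ F : Set (List (ℕ × Bool)), (∀ C ∈ F, C.length ≤ k) ∧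
    ∀ x : List Bool, x.length = n → (x ∈ A ↔ ∀ C ∈ F, ∃ q ∈ C, x.getD q.1 false = q.2)

/-- **Accepted strings satisfy the clauses.** -/
theorem kB_sound {k n : ℕ} {A : Set (List Bool)} {F : Set (List (ℕ × Bool))}
    (hF : ∀ C ∈ F, C.length ≤ k)
    (hA : ∀ x : List Bool, x.length = n → (x ∈ A ↔ ∀ C ∈ F, ∃ q ∈ C, x.getD q.1 false = q.2))
    {l : List (List Bool)} (hl : ∀ a ∈ l, a ∈ A ∧ a.length = n) {x : List Bool}
    (hx : x.length = n) (h : kB k l x = true) : x ∈ A := by
  rw [hA x hx]
  intro C hC
  unfold kB at h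
  rw [List.all_eq_true] at h
  -- the tuple of the positions of the clause
  set t : List ℕ := C.map (fun q => min q.1 n) ++ List.replicate (k - C.length) n with ht
  have h1 : t ∈ tup (List.range (x.length + 1)) k := by
    rw [mem_tup]
    refine ⟨?_, fun i hi => ?_⟩
    · rw [ht, List.length_append, List.length_map, List.length_replicate]
      have := hF C hC
      omega
    · rw [List.mem_range, hx]
      rw [ht, List.mem_append, List.mem_map, List.mem_replicate] at hi
      rcases hi with ⟨q, _, rfl⟩ | ⟨_, rfl⟩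
      · omega
      · omega
  have h2 := h t h1
  rw [List.any_eq_true] at h2
  obtain ⟨a, ha, h3⟩ := h2
  rw [decide_eq_true_eq] at h3
  obtain ⟨h4, h5⟩ := hl a ha
  obtain ⟨q, hq, h6⟩ := (hA a h5).1 h4 C hC
  refine ⟨q, hq, ?_⟩
  rw [← h6]
  -- `a` and `x` agree at the position
  have h7 : min q.1 n ∈ t := by
    rw [ht, List.mem_append]
    exact Or.inl (List.mem_map.2 ⟨q, hq, rfl⟩)
  unfold res at h3
  have h8 := List.map_inj_left.1 h3 _ h7
  by_cases h9 : q.1 < n
  · rw [min_eq_left h9.le] at h8
    exact h8.symm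
  · rw [List.getD_eq_default _ _ (by omega), List.getD_eq_default _ _ (by omega)]

/-- The patterns that occur. -/
def pat (k n : ℕ) (l : List (List Bool)) : Finset (List ℕ × List Bool) :=
  (((tup (List.range (n + 1)) k).flatMap fun t => l.map fun a => (t, res a t))).toFinset

theorem mem_pat {k n : ℕ} {l : List (List Bool)} {q : List ℕ × List Bool} :
    q ∈ pat k n l ↔ q.1 ∈ tup (List.range (n + 1)) k ∧ ∃ a ∈ l, res a q.1 = q.2 := by
  unfold pat
  rw [List.mem_toFinset, List.mem_flatMap]
  constructor
  · rintro ⟨t, ht, h⟩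
    obtain ⟨a, ha, rfl⟩ := List.mem_map.1 h
    exact ⟨ht, a, ha, rfl⟩
  · rintro ⟨h1, a, ha, h2⟩
    exact ⟨q.1, h1, List.mem_map.2 ⟨a, ha, by rw [h2]⟩⟩

theorem cK_mist {k n : ℕ} : ∀ l : List (List Bool), (∀ a ∈ l, a.length = n) → Mist (cK k) l →
    l.length ≤ (pat k n l).card
  | [], _, _ => by simp
  | x :: l, h, hm => by
    have h2 := cK_mist l (fun a ha => h a (List.mem_cons_of_mem _ ha)) hm.2
    have h4 := hm.1
    unfold cK at h4
    rw [dl_bits] at h4
    simp only at h4
    have h5 : ¬ kB k l x = true := fun h => h4 (by rw [h])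
    unfold kB at h5
    rw [List.all_eq_true] at h5
    push Not at h5
    obtain ⟨t, ht, h6⟩ := h5
    rw [ne_eq, List.any_eq_true] at h6
    push Not at h6
    rw [h x List.mem_cons_self] at ht
    have h7 : pat k n l ⊂ pat k n (x :: l) := by
      refine Finset.ssubset_iff_subset_ne.2 ⟨fun q hq => ?_, fun heq => ?_⟩
      · obtain ⟨a1, a, a2, a3⟩ := mem_pat.1 hq
        exact mem_pat.2 ⟨a1, a, List.mem_cons_of_mem _ a2, a3⟩
      · have h8 : (t, res x t) ∈ pat k n (x :: l) := mem_pat.2 ⟨ht, x, List.mem_cons_self, rfl⟩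
        rw [← heq] at h8
        obtain ⟨_, a, ha, h9⟩ := mem_pat.1 h8
        exact h6 a ha (by simpa using h9)
    have h8 := Finset.card_lt_card h7
    rw [List.length_cons]
    omega

theorem pat_card (k n : ℕ) (l : List (List Bool)) : (pat k n l).card ≤ (n + 1) ^ k * 2 ^ k := by
  classical
  have h1 : pat k n l ⊆ (tup (List.range (n + 1)) k).toFinset ×ˢ
      (Finset.univ : Finset (Fin k → Bool)).image List.ofFn := by
    intro q hq
    obtain ⟨h1, a, _, h2⟩ := mem_pat.1 hq
    refine Finset.mem_product.2 ⟨List.mem_toFinset.2 h1, Finset.mem_image.2 ?_⟩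
    have h3 : q.2.length = k := by
      rw [← h2]
      unfold res
      rw [List.length_map]
      exact (mem_tup.1 h1).1
    refine ⟨fun i => q.2.get (i.cast h3.symm), Finset.mem_univ _, ?_⟩
    refine List.ext_getElem (by rw [List.length_ofFn, h3]) fun i h4 h5 => ?_
    simp
  refine (Finset.card_le_card h1).trans ?_
  rw [Finset.card_product]
  refine Nat.mul_le_mul ((List.toFinset_card_le _).trans ?_) (Finset.card_image_le.trans ?_)
  · rw [tup_length, List.length_range]
  · rw [Finset.card_univ, Fintype.card_fun, Fintype.card_bool, Fintype.card_fin]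

/-- **Sets given by `k`-CNFs can be learned from positive examples.** -/
theorem posLearnable_of_kCnf {k : ℕ} {A : Set (List Bool)} (h : IsKCnf k A) : PosLearnable A := by
  refine ⟨cK k, (Polynomial.X + 1) ^ k * Polynomial.C (2 ^ k), PIso.poly_iff.1 (cK_poly k),
    fun n l hl hm => ?_⟩
  obtain ⟨F, hF, hA⟩ := h n
  refine ⟨?_, fun x hx hn h => ?_⟩
  · have h1 := (cK_mist l (fun a ha => (hl a ha).2) hm).trans (pat_card k n l)
    simpa using h1
  · unfold cK at h
    rw [dl_bits] at h
    have h4 : kB k l x = true := by simpa using h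
    exact hx (kB_sound hF hA hl hn h4)

end Pool.Agent.TH682.LP
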