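import Pool.Agent.TH682.KD.Defs

/-!
# Learning from positive examples

Polynomial time is Mathlib's `Turing.TM2ComputableInPolyTime` (through `Pool.Agent.NPC.PolyTime`).
-/

set_option autoImplicit false

namespace Pool.Agent.TH682.LP

open Pool.Agent.NPC

/-- The list of strings `l` (the last one first) is a sequence of mistakes of the learner `c`: every
string of the list is not accepted by `c`, given the strings that come earlier in time (those after
it in the list). -/
def Mist (c : List Bool → List Bool) : List (List Bool) → Prop
  | [] => True
  | a :: l => c (bits (l, a)) ≠ [true] ∧ Mist c l

/-- The set `A` can be learned from positive examples: there are a function `c`, computable in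
polynomial time, and a polynomial `p` such that for every `n` and every sequence `l` of mistakes of
`c` that consists of strings of length `n` in `A`, the sequence has at most `p n` members, and with
the examples `l` the function `c` accepts no string of length `n` outside `A`. -/
def PosLearnable (A : Set (List Bool)) : Prop :=
  ∃ (c : List Bool → List Bool) (p : Polynomial ℕ), PolyTime c ∧
    ∀ (n : ℕ) (l : List (List Bool)), (∀ a ∈ l, a ∈ A ∧ a.length = n) → Mist c l →
      l.length ≤ p.eval n ∧ ∀ x ∉ A, x.length = n → c (bits (l, x)) ≠ [true]

/-- Sparse sets: at most `p n` members of length `n`, for a polynomial `p`. -/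
def Sparse (A : Set (List Bool)) : Prop :=
  ∃ p : Polynomial ℕ, ∀ (n : ℕ) (F : Finset (List Bool)), (∀ x ∈ F, x ∈ A ∧ x.length = n) →
    F.card ≤ p.eval n

end Pool.Agent.TH682.LP
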