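import Pool.Agent.TH682.LP.Log
import Pool.Agent.TH682.DP.Grp

/-!
# Sets that can be learned from positive examples
-/

set_option autoImplicit false

namespace Pool.Agent.TH682.LP

open Pool.Agent.NPC Pool.Agent.H579R2.Spt
open Pool.Agent.TH682.GD hiding Good
open Pool.Agent.TH682.KD (isp isp_vals exists_of_isp isp_poly GroupLang)
open Pool.Agent.TH684.EX (poly_of_polyTime)
open Pool.Agent.TH682.DP (tb tb_cons tb_spec cB cB_sound)

/-- Decoding. -/
def dl (z : List Bool) : List (List Bool) × List Bool :=
  (unbits (List (List Bool) × List Bool) z).getD ([], [])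

theorem dl_bits (d : List (List Bool) × List Bool) : dl (bits d) = d := by
  rw [dl, unbits_bits]
  rfl

theorem dl_poly : Poly dl := NPC.Poly.optGetD poly_unbits (NPC.Poly.const _)

/-! ### Sparse sets -/

theorem sparse_mist : ∀ l : List (List Bool),
    Mist (fun z => [decide ((dl z).2 ∈ (dl z).1)]) l → l.Nodup
  | [], _ => List.nodup_nil
  | a :: l, h => by
    refine List.nodup_cons.2 ⟨fun h1 => ?_, sparse_mist l h.2⟩
    refine h.1 ?_
    simp only [dl_bits]
    rw [decide_eq_true h1]

/-- **Sparse sets can be learned from positive examples.** -/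
theorem posLearnable_of_sparse {A : Set (List Bool)} (h : Sparse A) : PosLearnable A := by
  classical
  obtain ⟨p, hp⟩ := h
  refine ⟨fun z => [decide ((dl z).2 ∈ (dl z).1)], p, PIso.poly_iff.1 (NPC.Poly.cons
    ((NPC.Poly.decide_mem (NPC.Poly.snd dl_poly) (NPC.Poly.fst dl_poly)).congr fun _ =>
      decide_eq_decide.2 Iff.rfl) (NPC.Poly.const [])),
    fun n l hl hm => ⟨?_, fun x hx hn h => ?_⟩⟩
  · have h1 := sparse_mist l hm
    rw [← List.toFinset_card_of_nodup h1]
    exact hp n l.toFinset fun x hx => hl x (List.mem_toFinset.1 hx)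
  · simp only [dl_bits] at h
    have h1 : x ∈ l := by simpa using h
    exact hx (hl x h1).1

/-! ### Many-one reductions -/

/-- The learner. -/
def cR (c g : List Bool → List Bool) (z : List Bool) : List Bool :=
  c (bits (rw' (g (dl z).2).length ((dl z).1.map g), g (dl z).2))

theorem cR_mist {c g : List Bool → List Bool} : ∀ l : List (List Bool),
    Mist (cR c g) l → MistAll c (l.map g)
  | [], _ => trivial
  | a :: l, h => by
    refine ⟨?_, cR_mist l h.2⟩
    have h1 := h.1
    unfold cR at h1
    rw [dl_bits] at h1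
    exact h1

/-- **Closure under many-one reductions.** -/
theorem posLearnable_of_reduction {A B : Set (List Bool)} (hB : PosLearnable B)
    {g : List Bool → List Bool} (hg : PolyTime g) (hAB : ∀ x, x ∈ A ↔ g x ∈ B) :
    PosLearnable A := by
  obtain ⟨c, p, hc, hcG⟩ := hB
  have hcp : Poly c := PIso.poly_iff.2 hc
  have hgp : Poly g := PIso.poly_iff.2 hg
  obtain ⟨q, hq⟩ := PIso.length_bound hgp
  have e1 : Poly (fun z : List Bool => g (dl z).2) := hgp.comp (NPC.Poly.snd dl_poly)
  have e2 : Poly (fun z : List Bool => (dl z).1.map g) :=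
    NPC.Poly.map (l := fun z : List Bool => (dl z).1) (F := fun _ a => g a)
      (NPC.Poly.fst dl_poly) (hgp.comp (NPC.Poly.snd NPC.Poly.id))
  refine ⟨cR c g, (q + 1) * p.comp (q + 1), PIso.poly_iff.1 (hcp.comp (bits_poly.comp
    (NPC.Poly.pair (rw'_poly (NPC.Poly.length e1) e2) e1))), fun n l hl hm => ?_⟩
  have h1 : Valid c B ((q + 1).eval n) (l.map g) := by
    refine ⟨fun b hb => ?_, cR_mist l hm⟩
    obtain ⟨a, ha, rfl⟩ := List.mem_map.1 hb
    obtain ⟨h2, h3⟩ := hl a ha
    refine ⟨(hAB a).1 h2, ?_⟩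
    have h4 := hq a
    rw [h3] at h4
    simp only [Polynomial.eval_add, Polynomial.eval_one]
    omega
  refine ⟨?_, fun x hx hn h => ?_⟩
  · have h2 := valid_length_le hcG h1
    rw [List.length_map] at h2
    rw [Polynomial.eval_mul, Polynomial.eval_comp]
    exact h2
  · unfold cR at h
    rw [dl_bits] at h
    exact (hcG (g x).length (rw' (g x).length (l.map g)) (fun a ha => ⟨(h1.1 a
      (mem_rw'.1 ha).1).1, (mem_rw'.1 ha).2⟩) (mist_rw' _ h1.2)).2 (g x)
        (fun h2 => hx ((hAB x).2 h2)) rfl h

/-! ### Groups -/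

/-- The learner. -/
def cG (f : List Bool → List ℕ) (z : List Bool) : List Bool := [cB f (dl z).1 (dl z).2]

theorem cG_poly {f : List Bool → List ℕ} (hf : Poly f) : Poly (cG f) := by
  have e1 : Poly (fun d : List (List Bool) × List Bool => d.1) := NPC.Poly.fst NPC.Poly.id
  have e2 : Poly (fun d : List (List Bool) × List Bool => f d.2) :=
    hf.comp (NPC.Poly.snd NPC.Poly.id)
  have e3 : Poly (fun d : List (List Bool) × List Bool => f (d.1.head?.getD [])) :=
    hf.comp (NPC.Poly.optGetD (NPC.Poly.head? e1) (NPC.Poly.const _))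
  have e4 : Poly (fun d : List (List Bool) × List Bool => tb f d.1) :=
    tbl_poly (NPC.Poly.map (l := fun d : List (List Bool) × List Bool => d.1.reverse)
      (F := fun _ a => f a) (NPC.Poly.reverse e1) (hf.comp (NPC.Poly.snd NPC.Poly.id)))
  have e5 : Poly (fun d : List (List Bool) × List Bool => cB f d.1 d.2) := by
    refine NPC.Poly.and (NPC.Poly.not ?_) (NPC.Poly.and (NPC.Poly.decide_eq (NPC.Poly.length e2)
      (NPC.Poly.length e3)) (NPC.Poly.and (isp_poly e2) (NPC.Poly.decide_eq
        (key_poly (sft_poly e4 e2)) (NPC.Poly.const none))))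
    exact (NPC.Poly.decide_eq e1 (NPC.Poly.const ([] : List (List Bool)))).congr fun _ =>
      decide_eq_decide.2 Iff.rfl
  exact NPC.Poly.cons (e5.comp dl_poly) (NPC.Poly.const [])

/-- The number of mistakes is bounded. -/
theorem cG_mist {f : List Bool → List ℕ} {N : ℕ} {H : Subgroup (Equiv.Perm (Fin N))} :
    ∀ l : List (List Bool), (∀ a ∈ l, ∃ σ ∈ H, vals σ = f a) → Mist (cG f) l →
      l.length ≤ (tb f l).length + 1
  | [], _, _ => by simp
  | x :: l, h, hm => by
    have h3 : ∀ a ∈ l, ∃ σ ∈ H, vals σ = f a := fun a ha => h a (List.mem_cons_of_mem _ ha)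
    have h2 := cG_mist l h3 hm.2
    have h4 := hm.1
    unfold cG at h4
    rw [dl_bits] at h4
    simp only at h4
    obtain ⟨σ, hσ, hσf⟩ := h x List.mem_cons_self
    rw [tb_cons, ← hσf, List.length_cons]
    by_cases h9 : l = []
    · subst h9
      simp
    · obtain ⟨a, l', hl'⟩ := List.exists_cons_of_ne_nil h9
      obtain ⟨τ, _, hτf⟩ := h3 a (by rw [hl']; exact List.mem_cons_self)
      have h11 : ¬ key (sft (tb f l) (vals σ)) = none := by
        intro h12
        refine h4 ?_
        have h13 : cB f l x = true := by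
          unfold cB
          rw [hl'] at h12 ⊢
          simp only [List.head?_cons, Option.getD_some, ← hσf, ← hτf, vals_length, isp_vals, h12]
          simp
        rw [h13]
      have h12 : (Pool.Agent.TH682.GD.ins (tb f l) (vals σ)).length = (tb f l).length + 1 := by
        unfold Pool.Agent.TH682.GD.ins
        rw [if_neg h11, List.length_cons]
      rw [h12]
      omega

theorem posLearnable_of_groups {A : Set (List Bool)} {f : List Bool → List ℕ} (hf : Poly f)
    (hN : ∀ n : ℕ, ∃ (N : ℕ) (H : Subgroup (Equiv.Perm (Fin N))),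
      ∀ x : List Bool, x.length = n → (x ∈ A ↔ ∃ σ ∈ H, vals σ = f x)) : PosLearnable A := by
  obtain ⟨q, hq⟩ := hf.sz_le
  refine ⟨cG f, (q.comp (Polynomial.C 4 * Polynomial.X + 1)) ^ 2 + 1,
    PIso.poly_iff.1 (cG_poly hf), fun n l hl hm => ?_⟩
  obtain ⟨N, H, hA⟩ := hN n
  have h3 : ∀ a ∈ l, ∃ σ ∈ H, vals σ = f a := fun a ha => (hA a (hl a ha).2).1 (hl a ha).1
  refine ⟨?_, fun x hx hn h => ?_⟩
  · have h2 := cG_mist l h3 hm
    rcases l with _ | ⟨e, l⟩
    · simp
    · obtain ⟨σ, _, hσ⟩ := h3 e List.mem_cons_self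
      have h4 : N ≤ q.eval (4 * n + 1) := by
        have h5 : N = (f e).length := by rw [← hσ, vals_length]
        have h6 := length_lt_sz (f e)
        have h7 := hq e
        have h8 := sz_listBool_le e
        rw [(hl e List.mem_cons_self).2] at h8
        have h9 := eval_mono q h8
        omega
      have h5 := tab_length_le (tb_spec _ h3).1
      have h7 := Nat.pow_le_pow_left h4 2
      simp only [Polynomial.eval_add, Polynomial.eval_pow, Polynomial.eval_comp,
        Polynomial.eval_mul, Polynomial.eval_C, Polynomial.eval_X, Polynomial.eval_one]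
      omega
  · unfold cG at h
    rw [dl_bits] at h
    have h4 : cB f l x = true := by simpa using h
    exact hx ((hA x hn).2 (cB_sound h3 h4))

theorem sz_perm {l l' : List ℕ} (h : l.Perm l') : sz l = sz l' := by
  induction h with
  | nil => rfl
  | cons a _ ih => rw [sz_list_cons, sz_list_cons, ih]
  | swap a b l =>
    simp only [sz_list_cons]
    omega
  | trans _ _ ih1 ih2 => rw [ih1, ih2]

theorem vals_perm {N : ℕ} (σ : Equiv.Perm (Fin N)) : (List.range N).Perm (vals σ) := by
  have h := isp_vals σ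
  unfold isp at h
  rw [List.all_eq_true, vals_length] at h
  have h1 : List.range N ⊆ vals σ := fun i hi => by simpa using h i hi
  have h2 : (List.range N).Subperm (vals σ) := List.nodup_range.subperm h1
  exact h2.perm_of_length_le (by simp)

theorem sz_range_strictMono : StrictMono (fun N : ℕ => sz (List.range N)) := by
  refine strictMono_nat_of_lt_succ fun N => ?_
  have h := Pool.Agent.NPC.sz_append (List.range N) [N]
  rw [List.range_succ]
  rw [sz_list_cons, sz_list_nil] at h
  omega

theorem eq_of_length {N M : ℕ} {σ : Equiv.Perm (Fin N)} {τ : Equiv.Perm (Fin M)}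
    (h : (bits (vals σ)).length = (bits (vals τ)).length) : N = M := by
  rw [bits_length, bits_length, ← sz_perm (vals_perm σ), ← sz_perm (vals_perm τ)] at h
  exact sz_range_strictMono.injective h

/-- The list of values. -/
def fv (x : List Bool) : List ℕ :=
  if bits ((unbits (List ℕ) x).getD []) = x then (unbits (List ℕ) x).getD [] else [0, 0]

theorem fv_poly : Poly fv := by
  have e1 : Poly (fun x : List Bool => (unbits (List ℕ) x).getD []) :=
    NPC.Poly.optGetD poly_unbits (NPC.Poly.const _)
  exact NPC.Poly.ite (NPC.Poly.decide_eq (bits_poly.comp e1) NPC.Poly.id) e1 (NPC.Poly.const _)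

theorem fv_iff {N : ℕ} (σ : Equiv.Perm (Fin N)) (x : List Bool) :
    vals σ = fv x ↔ x = bits (vals σ) := by
  constructor
  · intro h
    unfold fv at h
    split_ifs at h with h1
    · rw [h, h1]
    · exfalso
      have h2 : (vals σ).Nodup := (vals_perm σ).nodup_iff.1 List.nodup_range
      rw [h] at h2
      simp at h2
  · rintro rfl
    unfold fv
    rw [unbits_bits]
    simp

/-- **Group languages can be learned from positive examples.** -/
theorem posLearnable_of_groupLang {G : Set (List Bool)} (h : GroupLang G) : PosLearnable G := by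
  obtain ⟨H, hH⟩ := h
  refine posLearnable_of_groups fv_poly fun n => ?_
  by_cases hn : ∃ (N : ℕ) (σ : Equiv.Perm (Fin N)), (bits (vals σ)).length = n
  · obtain ⟨N, τ, hτ⟩ := hn
    refine ⟨N, H N, fun x hx => ?_⟩
    rw [hH]
    constructor
    · rintro ⟨M, σ, hσ, rfl⟩
      obtain rfl : M = N := eq_of_length (hx.trans hτ.symm)
      exact ⟨σ, hσ, (fv_iff σ _).2 rfl⟩
    · rintro ⟨σ, hσ, h1⟩
      exact ⟨N, σ, hσ, (fv_iff σ x).1 h1⟩
  · refine ⟨0, ⊥, fun x hx => ⟨fun h1 => ?_, ?_⟩⟩
    · obtain ⟨N, σ, _, rfl⟩ := (hH x).1 h1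
      exact absurd ⟨N, σ, hx⟩ hn
    · rintro ⟨σ, _, h1⟩
      obtain rfl := (fv_iff σ x).1 h1
      exact absurd ⟨0, σ, hx⟩ hn

end Pool.Agent.TH682.LP
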