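import Pool.Agent.TH682.LP.Sim

/-!
# The number of entries of a complete list is found with few queries
-/

set_option autoImplicit false

namespace Pool.Agent.TH682.LP

open Pool.Agent.NPC Pool.Agent.H660R2.NX Pool.Agent.H579R2.Spt
open Pool.Agent.TH682.KD (alg_poly head?_eq InPT InNPT InPNPLog pd nv_pd nv_pd_succ pd_poly correct_snoc
  lt_two_pow_size)
open Pool.Agent.TH682.GD hiding Good
open Pool.Agent.W903.GP (SigmaP InPH)

/-! ### The test for sequences of mistakes -/

/-- The test. -/
def mistB (c : List Bool → List Bool) (T : List (List Bool)) : Bool :=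
  T.zipIdx.all fun q =>
    !decide (c (bits (rw' q.1.length (T.drop (q.2 + 1)), q.1)) = [true])

theorem mistAll_iff (c : List Bool → List Bool) : ∀ T : List (List Bool), MistAll c T ↔
    ∀ (i : ℕ) (h : i < T.length),
      c (bits (rw' T[i].length (T.drop (i + 1)), T[i])) ≠ [true]
  | [] => by simp [MistAll]
  | a :: T => by
    rw [MistAll, mistAll_iff c T]
    constructor
    · rintro ⟨h1, h2⟩ i hi
      cases i with
      | zero => simpa using h1
      | succ i => simpa using h2 i (by simpa using hi)
    · intro h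
      exact ⟨h 0 (by simp), fun i hi => h (i + 1) (by simpa using hi)⟩

theorem mistB_iff (c : List Bool → List Bool) (T : List (List Bool)) :
    mistB c T = true ↔ MistAll c T := by
  rw [mistAll_iff]
  unfold mistB
  rw [List.all_eq_true]
  constructor
  · intro h i hi
    have := h (T[i], i) (by rw [List.mem_zipIdx_iff_getElem?]; simp [hi])
    simpa using this
  · rintro h ⟨a, i⟩ ha
    rw [List.mem_zipIdx_iff_getElem?] at ha
    obtain ⟨hi, hi'⟩ := List.getElem?_eq_some_iff.1 ha
    have := h i hi
    simp only at hi' hi this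
    rw [hi'] at this
    simpa using this

theorem mistB_poly {α : Type} [TEnc α] {c : List Bool → List Bool} (hc : Poly c)
    {T : α → List (List Bool)} (hT : Poly T) : Poly (fun a => mistB c (T a)) := by
  refine NPC.Poly.all (l := fun a => (T a).zipIdx) (p := fun a (q : List Bool × ℕ) =>
    !decide (c (bits (rw' q.1.length ((T a).drop (q.2 + 1)), q.1)) = [true]))
    (NPC.Poly.zipIdx hT) ?_
  have e1 : Poly (fun q : α × (List Bool × ℕ) => q.2.1) :=
    NPC.Poly.fst (NPC.Poly.snd NPC.Poly.id)
  have e2 : Poly (fun q : α × (List Bool × ℕ) => q.2.2) :=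
    NPC.Poly.snd (NPC.Poly.snd NPC.Poly.id)
  have e3 : Poly (fun q : α × (List Bool × ℕ) => (T q.1).drop (q.2.2 + 1)) :=
    drop_poly' (hT.comp (NPC.Poly.fst NPC.Poly.id)) (NPC.Poly.add e2 (NPC.Poly.const 1))
  exact NPC.Poly.not (ans_poly hc e3 e1)

variable {c : List Bool → List Bool} {p : Polynomial ℕ} {A : Set (List Bool)}

/-- The number of binary digits. -/
def tt (Q : Polynomial ℕ) (x : List Bool) : ℕ := (Q.eval x.length).size

/-- The queries: is there a valid list with at least so many entries (and, in the last query, such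
that the input is accepted with this list)? -/
def Ask (c : List Bool → List Bool) (A : Set (List Bool))
    (D : List Bool × (List (List Bool) × List Bool) → Bool)
    (m s Q : Polynomial ℕ) (d : List Bool × List Bool) : Prop :=
  ∃ T : List (List Bool), Valid c A (m.eval d.1.length) T ∧
    nv (pd (tt Q d.1) d.2) ≤ T.length ∧ (d.2.length ≤ tt Q d.1 ∨
      ∃ w : List Bool, w.length ≤ s.eval d.1.length ∧ D (d.1, (T, w)) = true)

/-- Certificates: entries with witnesses, and a certificate for the input. -/
abbrev Wit := List (List Bool × List Bool) × List Bool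

/-- The check of a witness. -/
def wck (pA : Polynomial ℕ) (V : List Bool → List Bool) (x w : List Bool) : Bool :=
  decide (w.length ≤ pA.eval x.length) && decide (V (pairBits x w) = [true])

/-- The check of a certificate. -/
def chk (c : List Bool → List Bool)
    (D : List Bool × (List (List Bool) × List Bool) → Bool)
    (m s Q pA : Polynomial ℕ) (V : List Bool → List Bool)
    (r : (List Bool × List Bool) × Wit) : Bool :=
  r.2.1.all (fun q => wck pA V q.1 q.2 && decide (q.1.length < m.eval r.1.1.length)) &&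
    (mistB c (r.2.1.map Prod.fst) && (decide (nv (pd (tt Q r.1.1) r.1.2) ≤ r.2.1.length) &&
      (decide (r.1.2.length ≤ tt Q r.1.1) || (decide (r.2.2.length ≤ s.eval r.1.1.length) &&
        D (r.1.1, (r.2.1.map Prod.fst, r.2.2))))))

section poly

variable {α : Type} [TEnc α]

theorem tt_upoly (Q : Polynomial ℕ) {x : α → List Bool} (hx : Poly x) :
    UPoly (fun a => tt Q (x a)) := by
  have h1 : UPoly (fun a => Q.eval (x a).length) := (UPoly.length hx).eval Q
  exact UPoly.of_le ((NPC.Poly.length (NPC.Poly.natBits h1.toPoly)).congr fun q =>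
    Nat.size_eq_bits_len _) h1 fun _ => NPC.Poly.size_le_self _

theorem wck_poly (pA : Polynomial ℕ) {V : List Bool → List Bool} (hV : Poly V)
    {x w : α → List Bool} (hx : Poly x) (hw : Poly w) : Poly (fun a => wck pA V (x a) (w a)) :=
  NPC.Poly.and (NPC.Poly.decide_le (NPC.Poly.length hw) ((UPoly.length hx).eval pA).toPoly)
    (NPC.Poly.decide_eq (hV.comp (Pool.Agent.H622R2.poly_pairBits hx hw)) (NPC.Poly.const _))

theorem chk_poly (hc : Poly c) {D : List Bool × (List (List Bool) × List Bool) → Bool}
    (hD : Poly D) (m s Q pA : Polynomial ℕ) {V : List Bool → List Bool} (hV : Poly V) :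
    Poly (chk c D m s Q pA V) := by
  have e1 : Poly (fun r : (List Bool × List Bool) × Wit => r.1.1) :=
    NPC.Poly.fst (NPC.Poly.fst NPC.Poly.id)
  have e2 : Poly (fun r : (List Bool × List Bool) × Wit => r.1.2) :=
    NPC.Poly.snd (NPC.Poly.fst NPC.Poly.id)
  have e3 : Poly (fun r : (List Bool × List Bool) × Wit => r.2.1) :=
    NPC.Poly.fst (NPC.Poly.snd NPC.Poly.id)
  have e5 : Poly (fun r : (List Bool × List Bool) × Wit => r.2.2) :=
    NPC.Poly.snd (NPC.Poly.snd NPC.Poly.id)
  have e4 : Poly (fun r : (List Bool × List Bool) × Wit => r.2.1.map Prod.fst) :=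
    NPC.Poly.map (l := fun r : (List Bool × List Bool) × Wit => r.2.1)
      (F := fun _ (q : List Bool × List Bool) => q.1) e3
        (NPC.Poly.fst (NPC.Poly.snd NPC.Poly.id))
  refine NPC.Poly.and ?_ (NPC.Poly.and (mistB_poly hc e4) (NPC.Poly.and ?_ (NPC.Poly.or ?_
    (NPC.Poly.and ?_ ?_))))
  · refine NPC.Poly.all (l := fun r : (List Bool × List Bool) × Wit => r.2.1)
      (p := fun r q => wck pA V q.1 q.2 && decide (q.1.length < m.eval r.1.1.length)) e3 ?_
    have a1 : Poly (fun s : ((List Bool × List Bool) × Wit) × (List Bool × List Bool) =>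
        s.2.1) := NPC.Poly.fst (NPC.Poly.snd NPC.Poly.id)
    have a2 : Poly (fun s : ((List Bool × List Bool) × Wit) × (List Bool × List Bool) =>
        s.2.2) := NPC.Poly.snd (NPC.Poly.snd NPC.Poly.id)
    have a4 : Poly (fun s : ((List Bool × List Bool) × Wit) × (List Bool × List Bool) =>
        s.1.1.1) := e1.comp (NPC.Poly.fst NPC.Poly.id)
    exact NPC.Poly.and (wck_poly pA hV a1 a2) (NPC.Poly.decide_lt (NPC.Poly.length a1)
      ((UPoly.length a4).eval m).toPoly)
  · exact NPC.Poly.decide_le (nv_poly (pd_poly (tt_upoly Q e1) e2)) (NPC.Poly.length e3)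
  · exact NPC.Poly.decide_le (NPC.Poly.length e2) (tt_upoly Q e1).toPoly
  · exact NPC.Poly.decide_le (NPC.Poly.length e5) ((UPoly.length e1).eval s).toPoly
  · exact hD.comp (NPC.Poly.pair e1 (NPC.Poly.pair e4 e5))

end poly

/-- **The queries are in `NP`.** -/
theorem ask_inNP (hc : Poly c) (hcG : Good c p A) (hAN : InNP A)
    {D : List Bool × (List (List Bool) × List Bool) → Bool}
    (hD : Poly D) (m s Q : Polynomial ℕ) : InNP (lang (Ask c A D m s Q)) := by
  obtain ⟨V, pA, hV, hVA⟩ := hAN
  have hVp : Poly V := PIso.poly_iff.2 hV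
  set dc : List Bool → List Bool × List Bool := fun z =>
    (unbits (List Bool × List Bool) z).getD ([], []) with hdc
  set dw : List Bool → Wit := fun z => (unbits Wit z).getD ([], []) with hdw
  have hdcp : Poly dc := NPC.Poly.optGetD poly_unbits (NPC.Poly.const _)
  have hdwp : Poly dw := NPC.Poly.optGetD poly_unbits (NPC.Poly.const _)
  obtain ⟨Q', hQ'⟩ : ∃ Q' : Polynomial ℕ, ∀ n, Q'.eval n =
      m.eval n * p.eval (m.eval n) * ((4 * m.eval n + 1) +
        (4 * pA.eval (m.eval n) + 1) + 1 + 1) + 1 + (4 * s.eval n + 1) + 1 :=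
    ⟨m * p.comp m * ((Polynomial.C 4 * m + 1) + (Polynomial.C 4 * pA.comp m + 1) +
      1 + 1) + 1 + (Polynomial.C 4 * s + 1) + 1, fun n => by
      simp only [Polynomial.eval_add, Polynomial.eval_mul, Polynomial.eval_C,
        Polynomial.eval_one, Polynomial.eval_comp]⟩
  refine ⟨fun z => [decide (bits (dc (unpair z).1) = (unpair z).1) &&
    chk c D m s Q pA V (dc (unpair z).1, dw (unpair z).2)],
    Q', polyTime_of_poly (NPC.Poly.and
      (NPC.Poly.decide_eq (bits_poly.comp (hdcp.comp (NPC.Poly.fst poly_unpair)))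
        (NPC.Poly.fst poly_unpair)) ((chk_poly hc hD m s Q pA hVp).comp (NPC.Poly.pair
          (hdcp.comp (NPC.Poly.fst poly_unpair)) (hdwp.comp (NPC.Poly.snd poly_unpair))))),
    fun z => ?_⟩
  simp only [unpair_pairBits, List.cons.injEq, and_true, Bool.and_eq_true, decide_eq_true_eq]
  constructor
  · rintro ⟨d, rfl, T, hT, hlen, hD'⟩
    have hwit : ∀ v ∈ T, ∃ w : List Bool,
        w.length ≤ pA.eval v.length ∧ wck pA V v w = true := by
      intro v hv
      obtain ⟨h1, _⟩ := hT.1 _ hv
      obtain ⟨w, hw1, hw2⟩ := (hVA _).1 h1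
      exact ⟨w, hw1, by simp [wck, hw1, hw2]⟩
    choose! U hU using hwit
    obtain ⟨u, hu, huD⟩ : ∃ u : List Bool, u.length ≤ s.eval d.1.length ∧
        (d.2.length ≤ tt Q d.1 ∨ D (d.1, (T, u)) = true) := by
      rcases hD' with h | ⟨w, hw, hwD⟩
      · exact ⟨[], by simp, Or.inl h⟩
      · exact ⟨w, hw, Or.inr hwD⟩
    have hd : dc (bits d) = d := by
      simp only [hdc, unbits_bits]
      rfl
    have hmap : (T.map (fun v => (v, U v))).map Prod.fst = T := by
      rw [List.map_map]
      exact (List.map_congr_left fun x _ => rfl).trans (List.map_id T)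
    have h4 : d.1.length ≤ sz d := by
      have h5 := length_lt_sz d.1
      have h6 : sz d = sz d.1 + sz d.2 + 1 := by rw [← sz_pair]
      omega
    refine ⟨bits (T.map (fun v => (v, U v)), u), ?_, by rw [hd], ?_⟩
    · rw [bits_length, bits_length, sz_pair]
      have h1 := sz_le_length_mul (T.map (fun v => (v, U v)))
        ((4 * m.eval d.1.length + 1) + (4 * pA.eval (m.eval d.1.length) + 1) + 1) fun q hq => by
          obtain ⟨v, hv, rfl⟩ := List.mem_map.1 hq
          rw [sz_pair]
          obtain ⟨h2, h3⟩ := hT.1 v hv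
          have h4 := sz_listBool_le v
          have h5 := (hU v hv).1
          have h6 := eval_mono pA h3.le
          have h7 := sz_listBool_le (U v)
          omega
      rw [List.length_map] at h1
      have h2 := valid_length_le hcG hT
      have h3 := Nat.mul_le_mul_right
        ((4 * m.eval d.1.length + 1) + (4 * pA.eval (m.eval d.1.length) + 1) + 1 + 1) h2
      have h5 := eval_mono Q' h4
      rw [hQ' d.1.length] at h5
      have h6 := sz_listBool_le u
      omega
    · have hw : dw (bits (T.map (fun v => (v, U v)), u)) = (T.map (fun v => (v, U v)), u) := by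
        simp only [hdw, unbits_bits]
        rfl
      rw [hd, hw]
      unfold chk
      simp only [hmap, Bool.and_eq_true, List.all_eq_true, decide_eq_true_eq, Bool.or_eq_true,
        mistB_iff, List.length_map]
      refine ⟨fun q hq => ?_, hT.2, hlen, huD.imp_right fun h => ⟨hu, h⟩⟩
      obtain ⟨v, hv, rfl⟩ := List.mem_map.1 hq
      exact ⟨(hU v hv).2, (hT.1 v hv).2⟩
  · rintro ⟨w, _, h1, h2⟩
    unfold chk at h2
    simp only [Bool.and_eq_true, List.all_eq_true, decide_eq_true_eq, Bool.or_eq_true,
      mistB_iff] at h2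
    obtain ⟨h2, h3, h4, h5⟩ := h2
    refine ⟨dc z, h1, (dw w).1.map Prod.fst, ⟨fun v hv => ?_, h3⟩, ?_,
      h5.imp_right fun h => ⟨_, h.1, h.2⟩⟩
    · obtain ⟨q, hq, rfl⟩ := List.mem_map.1 hv
      obtain ⟨a4, a3⟩ := h2 q hq
      refine ⟨?_, a3⟩
      unfold wck at a4
      rw [Bool.and_eq_true, decide_eq_true_eq, decide_eq_true_eq] at a4
      exact (hVA _).2 ⟨q.2, a4.1, a4.2⟩
    · rw [List.length_map]
      exact h4

theorem exists_longest (hcG : Good c p A) (m : ℕ) : ∃ T, Valid c A m T ∧
      ∀ T', Valid c A m T' → T'.length ≤ T.length := by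
  classical
  have h0 : ∃ T, Valid c A m T ∧ T.length = 0 := ⟨[], ⟨by simp, trivial⟩, rfl⟩
  have h1 := Nat.findGreatest_spec (P := fun k => ∃ T, Valid c A m T ∧ T.length = k)
    (Nat.zero_le (m * p.eval m)) h0
  obtain ⟨T, hT, hlen⟩ := h1
  refine ⟨T, hT, fun T' hT' => ?_⟩
  rw [hlen]
  exact Nat.le_findGreatest (valid_length_le hcG hT') ⟨T', hT', rfl⟩

/-- The algorithm. -/
def act (p : Polynomial ℕ) (y : List Bool) : List Bool :=
  if (unpair y).2.length ≤ tt p (unpair (unpair y).1).1 then
    false :: bits ((unpair (unpair y).1).1, (unpair y).2 ++ [true])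
  else if (unpair y).2.getD (tt p (unpair (unpair y).1).1) false = true then [true] else []

theorem act_poly (p : Polynomial ℕ) : Poly (act p) := by
  have e1 : Poly (fun y : List Bool => (unpair (unpair y).1).1) :=
    NPC.Poly.fst (poly_unpair.comp (NPC.Poly.fst poly_unpair))
  have e2 : Poly (fun y : List Bool => (unpair y).2) := NPC.Poly.snd poly_unpair
  have e3 := (tt_upoly p e1).toPoly
  exact NPC.Poly.ite (NPC.Poly.decide_le (NPC.Poly.length e2) e3)
    (NPC.Poly.cons (NPC.Poly.const false) (bits_poly.comp (NPC.Poly.pair e1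
      (NPC.Poly.append e2 (NPC.Poly.const [true])))))
    (NPC.Poly.ite (NPC.Poly.decide_eq (NPC.Poly.getD e2 e3 (NPC.Poly.const false))
      (NPC.Poly.const true)) (NPC.Poly.const _) (NPC.Poly.const _))

theorem alg_act (p : Polynomial ℕ) (x h : List Bool) : alg (act p) x [] h =
    if h.length ≤ tt p x then false :: bits (x, h ++ [true])
    else if h.getD (tt p x) false = true then [true] else [] := by
  unfold alg act
  simp only [unpair_pairBits]

/-- **Few queries.** -/
theorem log_of_inNY (hc : Poly c) (hcG : Good c p A) (hAN : InNP A)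
    {L : Set (List Bool)} (hL : InNY c A L) : InPNPLog L := by
  classical
  obtain ⟨D, m, s, hD, hDL⟩ := hL
  obtain ⟨Q, hQ⟩ : ∃ Q : Polynomial ℕ, ∀ n, Q.eval n = m.eval n * p.eval (m.eval n) :=
    ⟨m * p.comp m, fun n => by simp [Polynomial.eval_comp]⟩
  obtain ⟨b, hb⟩ := exists_pow_add_bound Q
  refine ⟨act Q, lang (Ask c A D m s Q), b + 2, PIso.poly_iff.1 (act_poly Q),
    ask_inNP hc hcG hAN hD m s Q, fun x => ?_⟩
  set t := tt Q x with ht
  obtain ⟨T, hT, hmax⟩ := exists_longest hcG (m.eval x.length)
  set K := T.length with hK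
  have hKt : K < 2 ^ t := by
    have h1 := valid_length_le hcG hT
    rw [← hQ] at h1
    exact h1.trans_lt (lt_two_pow_size _)
  have hmem : ∀ g : List Bool, bits (x, g) ∈ lang (Ask c A D m s Q) ↔ Ask c A D m s Q (x, g) :=
    fun g => bits_mem_lang
  -- count queries
  have hcount : ∀ g : List Bool, g.length ≤ t →
      (bits (x, g) ∈ lang (Ask c A D m s Q) ↔ nv g * 2 ^ (t - g.length) ≤ K) := by
    intro g hg
    rw [hmem, ← nv_pd hg]
    constructor
    · rintro ⟨T', h1, h2, _⟩
      exact h2.trans (hmax T' h1)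
    · intro h
      exact ⟨T, hT, h, Or.inl hg⟩
  have hstep : ∀ i ≤ t, ∃ h : List Bool, h.length = i ∧
      Correct (alg (act Q) x []) (lang (Ask c A D m s Q)) h ∧ nv h * 2 ^ (t - i) ≤ K ∧
        K < (nv h + 1) * 2 ^ (t - i) := by
    intro i
    induction i with
    | zero =>
      intro _
      refine ⟨[], rfl, fun i hi => absurd hi (Nat.not_lt_zero _), by simp [nv], ?_⟩
      simpa [nv] using hKt
    | succ i ih =>
      intro hi
      obtain ⟨h, h1, h2, h3, h4⟩ := ih (by omega)
      have h5 : alg (act Q) x [] h = false :: bits (x, h ++ [true]) := by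
        rw [alg_act, if_pos (by omega)]
      have h6 := hcount (h ++ [true]) (by
        rw [List.length_append, List.length_singleton]
        omega)
      rw [nv_concat, if_pos rfl, List.length_append, List.length_singleton, h1] at h6
      refine ⟨h ++ [decide (bits (x, h ++ [true]) ∈ lang (Ask c A D m s Q))], by
        rw [List.length_append, List.length_singleton, h1], correct_snoc h2 h5 (by simp), ?_⟩
      have h7 : t - i = (t - (i + 1)) + 1 := by omega
      rw [h7, pow_succ] at h3 h4
      rw [nv_concat]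
      by_cases h8 : bits (x, h ++ [true]) ∈ lang (Ask c A D m s Q)
      · rw [decide_eq_true h8, if_pos rfl]
        have h9 := h6.1 h8
        refine ⟨h9, ?_⟩
        calc K < (nv h + 1) * (2 ^ (t - (i + 1)) * 2) := h4
          _ = _ := by ring
      · rw [decide_eq_false h8]
        have h9 := fun h => h8 (h6.2 h)
        refine ⟨?_, ?_⟩
        · refine le_trans (le_of_eq ?_) h3
          simp only [Bool.false_eq_true, if_false]
          ring
        · simp only [Bool.false_eq_true, if_false]
          refine lt_of_lt_of_le (not_le.1 h9) (le_of_eq ?_)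
          ring
  obtain ⟨h, h1, h2, h3, h4⟩ := hstep t le_rfl
  rw [Nat.sub_self, pow_zero, mul_one] at h3 h4
  have h5 : nv h = K := by omega
  have h6 : alg (act Q) x [] h = false :: bits (x, h ++ [true]) := by
    rw [alg_act, if_pos (by omega)]
  have h7 : bits (x, h ++ [true]) ∈ lang (Ask c A D m s Q) ↔ x ∈ L := by
    rw [hmem]
    unfold Ask
    simp only
    rw [nv_pd_succ h1, h5]
    constructor
    · rintro ⟨T', a1, a2, a3⟩
      have a4 : Comp c A (m.eval x.length) T' := comp_of_max a1 fun T'' hT'' =>
        (hmax T'' hT'').trans a2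
      refine (hDL x T' a4).2 (a3.resolve_left ?_)
      rw [List.length_append, List.length_singleton]
      omega
    · intro hx
      exact ⟨T, hT, le_rfl, Or.inr ((hDL x T (comp_of_max hT hmax)).1 hx)⟩
  refine ⟨h ++ [decide (x ∈ L)], ?_, correct_snoc h2 h6 (by rw [decide_eq_true_eq, h7]), ?_, ?_⟩
  · rw [List.length_append, List.length_singleton, h1]
    -- the number of queries
    have a1 := hb x.length
    have a2 : x.length < 2 ^ (Nat.log 2 x.length + 1) :=
      Nat.lt_pow_succ_log_self (by norm_num) _
    set l := Nat.log 2 x.length + 1 with hl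
    have a3 : x.length ^ b ≤ 2 ^ (l * b) := by
      rw [pow_mul]
      exact Nat.pow_le_pow_left a2.le b
    have a4 : b < 2 ^ (l * b) := (Nat.lt_two_pow_self (n := b)).trans_le
      (Nat.pow_le_pow_right (by norm_num) (by
        have : 1 ≤ l := by omega
        nlinarith))
    have a5 : Q.eval x.length < 2 ^ (l * b + 1) := by
      rw [pow_succ 2 (l * b)]
      omega
    have a6 : t ≤ l * b + 1 := Nat.size_le.2 a5
    have a7 : 1 ≤ l := by omega
    nlinarith
  · intro q hq
    rw [alg_act, if_neg (by
      rw [List.length_append, List.length_singleton, h1]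
      omega)] at hq
    split_ifs at hq
    · simp at hq
  · rw [alg_act, if_neg (by
      rw [List.length_append, List.length_singleton, h1]
      omega)]
    have a1 : (h ++ [decide (x ∈ L)]).getD (tt Q x) false = decide (x ∈ L) := by
      rw [List.getD_eq_getElem _ _ (by
        rw [List.length_append, List.length_singleton, h1]
        omega), List.getElem_append_right (by omega)]
      simp
    rw [a1]
    by_cases hx : x ∈ L <;> simp [hx]

theorem inNY_of_inY {L : Set (List Bool)} (h : InY c A L) : InNY c A L := by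
  obtain ⟨D, p, hD, hDL⟩ := h
  refine ⟨fun d => D (d.1, d.2.1), p, 0, hD.comp (NPC.Poly.pair (NPC.Poly.fst NPC.Poly.id)
    (NPC.Poly.fst (NPC.Poly.snd NPC.Poly.id))), fun x T hT => ?_⟩
  rw [← hDL x T hT]
  exact ⟨fun h => ⟨[], by simp, h⟩, fun ⟨_, _, h⟩ => h⟩

/-- **Languages reducible to a set that can be learned from positive examples.** -/
theorem reducible_log {A : Set (List Bool)} (hA : InNP A) (hLr : PosLearnable A)
    {L : Set (List Bool)} (hL : InPT A L) : InPNPLog L := by
  obtain ⟨c, p, hc, hcG⟩ := hLr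
  have hcp : Poly c := PIso.poly_iff.2 hc
  exact log_of_inNY hcp hcG hA (inNY_of_inY (inY_of_inPT hcp hcG hL))

/-- **Hard sets that can be learned from positive examples.** -/
theorem collapse {A : Set (List Bool)} (hA : InNP A) (hLr : PosLearnable A)
    (hco : ∀ L, InNP L → InNPT A Lᶜ) {L : Set (List Bool)} (hL : InPH L) : InPNPLog L := by
  obtain ⟨c, p, hc, hcG⟩ := hLr
  have hcp : Poly c := PIso.poly_iff.2 hc
  obtain ⟨k, hk⟩ := hL
  exact log_of_inNY hcp hcG hA (ph_inNY hcp hcG hco k L hk)

end Pool.Agent.TH682.LP
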