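import Pool.Agent.TH682.LP.Tab
import Pool.Agent.TH682.KD.Log

/-!
# Simulation with a complete list, and the polynomial hierarchy
-/

set_option autoImplicit false

namespace Pool.Agent.TH682.LP

open Pool.Agent.NPC Pool.Agent.H660R2.NX Pool.Agent.H579R2.Spt
open Pool.Agent.TH684.EX (poly_of_polyTime)
open Pool.Agent.W903.GP (SigmaP InPH)
open Pool.Agent.TH682.KD (alg_poly head?_eq InPT InNPT)

section poly

variable {α : Type} [TEnc α]

theorem rw'_poly {N : α → ℕ} {T : α → List (List Bool)} (hN : Poly N) (hT : Poly T) :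
    Poly (fun a => rw' (N a) (T a)) :=
  NPC.Poly.filter (l := T) (p := fun a v => decide (v.length = N a)) hT
    (NPC.Poly.decide_eq (NPC.Poly.length (NPC.Poly.snd NPC.Poly.id))
      (hN.comp (NPC.Poly.fst NPC.Poly.id)))

theorem cut_poly {m : α → ℕ} {T : α → List (List Bool)} (hm : Poly m) (hT : Poly T) :
    Poly (fun a => cut (m a) (T a)) :=
  NPC.Poly.filter (l := T) (p := fun a v => decide (v.length < m a)) hT
    (NPC.Poly.decide_lt (NPC.Poly.length (NPC.Poly.snd NPC.Poly.id))
      (hm.comp (NPC.Poly.fst NPC.Poly.id)))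

theorem ans_poly {c : List Bool → List Bool} (hc : Poly c) {T : α → List (List Bool)}
    {q : α → List Bool} (hT : Poly T) (hq : Poly q) : Poly (fun a => ans c (T a) (q a)) :=
  NPC.Poly.decide_eq (hc.comp (bits_poly.comp (NPC.Poly.pair (rw'_poly (NPC.Poly.length hq) hT)
    hq))) (NPC.Poly.const _)

end poly

variable {c : List Bool → List Bool} {p0 : Polynomial ℕ}

/-- One step of the simulation. -/
def stepS (c f : List Bool → List Bool) (x : List Bool) (T : List (List Bool)) (h : List Bool) :
    List Bool :=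
  if (alg f x [] h).head? = some false then h ++ [ans c T (alg f x [] h).tail] else h

theorem stepS_query {f : List Bool → List Bool} {x : List Bool} {T : List (List Bool)}
    {h q : List Bool} (hq : alg f x [] h = false :: q) : stepS c f x T h = h ++ [ans c T q] := by
  unfold stepS
  rw [hq]
  simp

theorem stepS_stop {f : List Bool → List Bool} {x : List Bool} {T : List (List Bool)}
    {h : List Bool} (hq : ∀ q, alg f x [] h ≠ false :: q) : stepS c f x T h = h := by
  unfold stepS
  rw [if_neg fun h1 => ?_]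
  obtain ⟨q, h2⟩ := head?_eq.1 h1
  exact hq q h2

/-- **Simulation.** -/
theorem sim_correct {f : List Bool → List Bool} {x : List Bool} {T : List (List Bool)}
    {G : Set (List Bool)} {R : ℕ} {P : Prop} (hdec : Decides (alg f x []) G R P)
    (hans : ∀ h q : List Bool, h.length < R → alg f x [] h = false :: q →
      (ans c T q = true ↔ q ∈ G)) :
    alg f x [] ((stepS c f x T)^[R] []) = [true] ↔ P := by
  obtain ⟨h, h1, h2, h3, h4⟩ := hdec
  have key : ∀ i ≤ h.length, (stepS c f x T)^[i] [] = h.take i := by
    intro i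
    induction i with
    | zero => intro _; rfl
    | succ i ih =>
      intro hi
      obtain ⟨q, h5, h6⟩ := h2 i (by omega)
      rw [Function.iterate_succ_apply', ih (by omega), stepS_query h5,
        List.take_succ_eq_append_getElem (by omega)]
      congr 2
      rw [Bool.eq_iff_iff, h6]
      exact hans (h.take i) q (by rw [List.length_take]; omega) h5
  have hfin : (stepS c f x T)^[R] [] = h := by
    obtain ⟨j, hj⟩ : ∃ j, R = j + h.length := ⟨R - h.length, by omega⟩
    rw [hj, Function.iterate_add_apply, key _ le_rfl, List.take_length]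
    clear hj
    induction j with
    | zero => rfl
    | succ j ih => rw [Function.iterate_succ_apply', ih, stepS_stop h3]
  rw [hfin]
  exact h4

/-- The simulated decision. -/
def simD (c f : List Bool → List Bool) (r : Polynomial ℕ) (d : List Bool × List (List Bool)) :
    Bool :=
  decide (alg f d.1 [] ((stepS c f d.1 d.2)^[(List.range (r.eval d.1.length)).length] []) = [true])

theorem stepS_poly (hc : Poly c) {f : List Bool → List Bool} (hf : Poly f) :
    Poly (fun q : (List Bool × List (List Bool)) × List Bool => stepS c f q.1.1 q.1.2 q.2) := by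
  have e1 : Poly (fun q : (List Bool × List (List Bool)) × List Bool => q.1.1) :=
    NPC.Poly.fst (NPC.Poly.fst NPC.Poly.id)
  have e2 : Poly (fun q : (List Bool × List (List Bool)) × List Bool => q.1.2) :=
    NPC.Poly.snd (NPC.Poly.fst NPC.Poly.id)
  have e3 : Poly (fun q : (List Bool × List (List Bool)) × List Bool => q.2) :=
    NPC.Poly.snd NPC.Poly.id
  have ha := alg_poly hf e1 e3
  exact NPC.Poly.ite (NPC.Poly.decide_eq (NPC.Poly.head? ha) (NPC.Poly.const _))
    (NPC.Poly.append e3 (NPC.Poly.cons (ans_poly hc e2 (NPC.Poly.tail ha)) (NPC.Poly.const [])))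
    e3

theorem stepS_length (f : List Bool → List Bool) (x : List Bool) (T : List (List Bool)) (m : ℕ) :
    ((stepS c f x T)^[m] []).length ≤ m := by
  induction m with
  | zero => simp
  | succ m ih =>
    rw [Function.iterate_succ_apply']
    unfold stepS
    split_ifs
    · rw [List.length_append, List.length_singleton]
      exact Nat.succ_le_succ ih
    · exact ih.trans (Nat.le_succ m)

theorem simD_poly (hc : Poly c) {f : List Bool → List Bool} (hf : Poly f) (r : Polynomial ℕ) :
    Poly (simD c f r) := by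
  have e1 : Poly (fun d : List Bool × List (List Bool) => d.1) := NPC.Poly.fst NPC.Poly.id
  have hr : UPoly (fun d : List Bool × List (List Bool) => r.eval d.1.length) :=
    (UPoly.length e1).eval r
  have h1 : Poly (fun d : List Bool × List (List Bool) =>
      (stepS c f d.1 d.2)^[(List.range (r.eval d.1.length)).length] []) := by
    refine NPC.Poly.iterLen (l := fun d : List Bool × List (List Bool) =>
      List.range (r.eval d.1.length)) (s := fun _ => ([] : List Bool))
      (F := fun d h => stepS c f d.1 d.2 h) hr.range (NPC.Poly.const _) (stepS_poly hc hf)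
      (Polynomial.C 4 * r + 1) fun d k hk => ?_
    rw [List.length_range] at hk
    change sz ((stepS c f d.1 d.2)^[k] []) ≤ _
    have h2 := stepS_length (c := c) f d.1 d.2 k
    have h3 := sz_listBool_le ((stepS c f d.1 d.2)^[k] [])
    have h4 : d.1.length ≤ sz d := by
      have h5 := length_lt_sz d.1
      have h6 : sz d = sz d.1 + sz d.2 + 1 := by rw [← sz_pair]
      omega
    have h5 := eval_mono r h4
    simp only [Polynomial.eval_add, Polynomial.eval_mul, Polynomial.eval_C, Polynomial.eval_one]
    omega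
  exact NPC.Poly.decide_eq (alg_poly hf e1 h1) (NPC.Poly.const _)

/-! ### Languages decided with complete tables -/

/-- The languages which are decided in polynomial time with a complete table. -/
def InY (c : List Bool → List Bool) (G L : Set (List Bool)) : Prop :=
  ∃ (D : List Bool × List (List Bool) → Bool) (p : Polynomial ℕ), Poly D ∧
    ∀ (x : List Bool) (T : List (List Bool)), Comp c G (p.eval x.length) T → (D (x, T) = true ↔ x ∈ L)

variable {G : Set (List Bool)}

theorem inY_of_inPT (hc : Poly c) (hG : Good c p0 G) {L : Set (List Bool)} (h : InPT G L) :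
    InY c G L := by
  obtain ⟨f, r, hf, hdec⟩ := h
  have hfp : Poly f := PIso.poly_iff.2 hf
  obtain ⟨q, hq⟩ := PIso.length_bound hfp
  refine ⟨simD c f r, q.comp (Polynomial.C 4 * Polynomial.X + 3 + r), simD_poly hc hfp r,
    fun x T hT => ?_⟩
  unfold simD
  rw [decide_eq_true_eq, List.length_range]
  change alg f x [] ((stepS c f x T)^[r.eval x.length] []) = [true] ↔ _
  refine sim_correct (hdec x) fun h z hh hz => ?_
  refine ans_iff hG hT ?_
  have h1 := hq (pairBits (pairBits x []) h)
  have h2 : f (pairBits (pairBits x []) h) = false :: z := hz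
  rw [h2, List.length_cons, PIso.pairBits_length,
    PIso.pairBits_length] at h1
  rw [Polynomial.eval_comp]
  simp only [Polynomial.eval_add, Polynomial.eval_mul, Polynomial.eval_C, Polynomial.eval_X,
    Polynomial.eval_ofNat]
  have h3 : q.eval (2 * (2 * x.length + 1 + ([] : List Bool).length) + 1 + h.length) ≤
      q.eval (4 * x.length + 3 + r.eval x.length) := eval_mono q (by
    rw [List.length_nil]
    omega)
  omega

/-- The size of valid lists. -/
def szB (p0 : Polynomial ℕ) (m : ℕ) : ℕ := m * p0.eval m * (4 * m + 1 + 1) + 1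

theorem valid_sz_le (hG : Good c p0 G) {m : ℕ} {T : List (List Bool)} (hT : Valid c G m T) :
    sz T ≤ szB p0 m := by
  have h1 := sz_le_length_mul T (4 * m + 1) fun v hv => by
    have h2 := (hT.1 v hv).2
    have h3 := sz_listBool_le v
    omega
  have h2 := valid_length_le hG hT
  unfold szB
  have h3 := Nat.mul_le_mul_right (4 * m + 1 + 1) h2
  omega

/-- Decoding of an input with a table. -/
def dt (y : List Bool) : List Bool × List (List Bool) :=
  (unbits (List Bool × List (List Bool)) y).getD ([], [])

theorem dt_bits (c : List Bool × List (List Bool)) : dt (bits c) = c := by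
  rw [dt, unbits_bits]
  rfl

theorem dt_poly : Poly dt := NPC.Poly.optGetD poly_unbits (NPC.Poly.const _)

/-- The languages which are decided in nondeterministic polynomial time with a complete table. -/
def InNY (c : List Bool → List Bool) (G L : Set (List Bool)) : Prop :=
  ∃ (D : List Bool × (List (List Bool) × List Bool) → Bool) (p s : Polynomial ℕ), Poly D ∧
    ∀ (x : List Bool) (T : List (List Bool)), Comp c G (p.eval x.length) T →
      (x ∈ L ↔ ∃ w : List Bool, w.length ≤ s.eval x.length ∧ D (x, (T, w)) = true)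

theorem inNY_of_inP {L : Set (List Bool)} (h : InP L) : InNY c G L := by
  obtain ⟨V, hV, hVL⟩ := h
  refine ⟨fun c => decide (V c.1 = [true]), 0, 0, NPC.Poly.decide_eq
    ((PIso.poly_iff.2 hV : Poly V).comp (NPC.Poly.fst NPC.Poly.id)) (NPC.Poly.const _),
    fun x T _ => ?_⟩
  rw [hVL]
  constructor
  · intro h
    exact ⟨[], by simp, by simpa using h⟩
  · rintro ⟨w, _, h⟩
    simpa using h

/-- `NP` relative to `G`. -/
theorem inNY_of_inNPT (hc : Poly c) (hG : Good c p0 G) {L : Set (List Bool)} (h : InNPT G L) :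
    InNY c G L := by
  obtain ⟨M, s, hM, hL⟩ := h
  obtain ⟨D, p, hD, hDM⟩ := inY_of_inPT hc hG hM
  obtain ⟨m1, hm1⟩ : ∃ m1 : Polynomial ℕ, ∀ n, m1.eval n = p.eval (2 * n + 1 + s.eval n) :=
    ⟨p.comp (Polynomial.C 2 * Polynomial.X + 1 + s), fun n => by
      rw [Polynomial.eval_comp]
      simp only [Polynomial.eval_add, Polynomial.eval_mul, Polynomial.eval_C, Polynomial.eval_X,
        Polynomial.eval_one]⟩
  have e1 : Poly (fun c : List Bool × (List (List Bool) × List Bool) => c.1) :=
    NPC.Poly.fst NPC.Poly.id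
  have e2 : Poly (fun c : List Bool × (List (List Bool) × List Bool) => c.2.1) :=
    NPC.Poly.fst (NPC.Poly.snd NPC.Poly.id)
  have e3 : Poly (fun c : List Bool × (List (List Bool) × List Bool) => c.2.2) :=
    NPC.Poly.snd (NPC.Poly.snd NPC.Poly.id)
  have e4 := Pool.Agent.H622R2.poly_pairBits e1 e3
  refine ⟨fun c => D (pairBits c.1 c.2.2, cut (p.eval (pairBits c.1 c.2.2).length) c.2.1), m1, s,
    hD.comp (NPC.Poly.pair e4 (cut_poly ((UPoly.length e4).eval p).toPoly e2)), fun x T hT => ?_⟩
  rw [hL]
  refine exists_congr fun w => and_congr_right fun hw => ?_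
  refine (hDM _ _ (comp_cut hT ?_)).symm
  rw [hm1]
  refine eval_mono p ?_
  rw [PIso.pairBits_length]
  omega

/-- **Existential quantifiers.** -/
theorem inNY_ex {L M : Set (List Bool)} (hM : InNY c G M) {s : Polynomial ℕ}
    (hL : ∀ x : List Bool, x ∈ L ↔
      ∃ w : List Bool, w.length ≤ s.eval x.length ∧ pairBits x w ∈ M) : InNY c G L := by
  obtain ⟨D, p, r, hD, hDM⟩ := hM
  obtain ⟨m1, hm1⟩ : ∃ m1 : Polynomial ℕ, ∀ n, m1.eval n = p.eval (2 * n + 1 + s.eval n) :=
    ⟨p.comp (Polynomial.C 2 * Polynomial.X + 1 + s), fun n => by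
      rw [Polynomial.eval_comp]
      simp only [Polynomial.eval_add, Polynomial.eval_mul, Polynomial.eval_C, Polynomial.eval_X,
        Polynomial.eval_one]⟩
  obtain ⟨r1, hr1⟩ : ∃ r1 : Polynomial ℕ, ∀ n, r1.eval n = 2 * s.eval n + 1 +
      r.eval (2 * n + 1 + s.eval n) :=
    ⟨Polynomial.C 2 * s + 1 + r.comp (Polynomial.C 2 * Polynomial.X + 1 + s), fun n => by
      simp only [Polynomial.eval_add, Polynomial.eval_mul, Polynomial.eval_C, Polynomial.eval_X,
        Polynomial.eval_one, Polynomial.eval_comp]⟩
  have e1 : Poly (fun c : List Bool × (List (List Bool) × List Bool) => c.1) :=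
    NPC.Poly.fst NPC.Poly.id
  have e2 : Poly (fun c : List Bool × (List (List Bool) × List Bool) => c.2.1) :=
    NPC.Poly.fst (NPC.Poly.snd NPC.Poly.id)
  have e3 : Poly (fun c : List Bool × (List (List Bool) × List Bool) => (unpair c.2.2).1) :=
    NPC.Poly.fst (poly_unpair.comp (NPC.Poly.snd (NPC.Poly.snd NPC.Poly.id)))
  have e3' : Poly (fun c : List Bool × (List (List Bool) × List Bool) => (unpair c.2.2).2) :=
    NPC.Poly.snd (poly_unpair.comp (NPC.Poly.snd (NPC.Poly.snd NPC.Poly.id)))
  have e4 := Pool.Agent.H622R2.poly_pairBits e1 e3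
  refine ⟨fun c => decide ((unpair c.2.2).1.length ≤ s.eval c.1.length) &&
    (decide ((unpair c.2.2).2.length ≤ r.eval (pairBits c.1 (unpair c.2.2).1).length) &&
      D (pairBits c.1 (unpair c.2.2).1, (cut (p.eval (pairBits c.1 (unpair c.2.2).1).length) c.2.1,
        (unpair c.2.2).2))), m1, r1, NPC.Poly.and (NPC.Poly.decide_le (NPC.Poly.length e3)
          ((UPoly.length e1).eval s).toPoly) (NPC.Poly.and (NPC.Poly.decide_le
            (NPC.Poly.length e3') ((UPoly.length e4).eval r).toPoly) (hD.comp (NPC.Poly.pair e4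
              (NPC.Poly.pair (cut_poly ((UPoly.length e4).eval p).toPoly e2) e3')))),
    fun x T hT => ?_⟩
  have hc : ∀ w : List Bool, w.length ≤ s.eval x.length →
      Comp c G (p.eval (pairBits x w).length) (cut (p.eval (pairBits x w).length) T) := by
    intro w hw
    refine comp_cut hT ?_
    rw [hm1]
    refine eval_mono p ?_
    rw [PIso.pairBits_length]
    omega
  simp only [Bool.and_eq_true, decide_eq_true_eq]
  rw [hL]
  constructor
  · rintro ⟨w, hw, hwM⟩
    obtain ⟨u, hu, huD⟩ := (hDM _ _ (hc w hw)).1 hwM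
    refine ⟨pairBits w u, ?_, ?_⟩
    · rw [PIso.pairBits_length, hr1]
      rw [PIso.pairBits_length] at hu
      have h1 : r.eval (2 * x.length + 1 + w.length) ≤ r.eval (2 * x.length + 1 +
        s.eval x.length) := eval_mono r (by omega)
      omega
    · rw [unpair_pairBits]
      exact ⟨hw, hu, huD⟩
  · rintro ⟨u, _, h1, h2, h3⟩
    exact ⟨_, h1, (hDM _ _ (hc _ h1)).2 ⟨_, h2, h3⟩⟩

/-- **Complements.** -/
theorem inNY_compl (hc : Poly c) (hG : Good c p0 G) (hco : ∀ L, InNP L → InNPT G Lᶜ)
    {L : Set (List Bool)}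
    (hL : InNY c G L) : InNY c G Lᶜ := by
  obtain ⟨D, p, s, hD, hDL⟩ := hL
  -- the language in `NP`
  obtain ⟨q, hq⟩ := (dt_poly).sz_le
  have h1 : InNP {y | ∃ w : List Bool, w.length ≤ s.eval (dt y).1.length ∧
      D ((dt y).1, ((dt y).2, w)) = true} := by
    have e1 : Poly (fun z : List Bool => dt (unpair z).1) :=
      dt_poly.comp (NPC.Poly.fst poly_unpair)
    have e2 : Poly (fun z : List Bool => (unpair z).2) := NPC.Poly.snd poly_unpair
    refine ⟨fun z => [decide ((unpair z).2.length ≤ s.eval (dt (unpair z).1).1.length) &&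
      D ((dt (unpair z).1).1, ((dt (unpair z).1).2, (unpair z).2))],
      s.comp (q.comp (Polynomial.C 4 * Polynomial.X + 1)), polyTime_of_poly (NPC.Poly.and
        (NPC.Poly.decide_le (NPC.Poly.length e2) ((UPoly.length (NPC.Poly.fst e1)).eval s).toPoly)
        (hD.comp (NPC.Poly.pair (NPC.Poly.fst e1) (NPC.Poly.pair (NPC.Poly.snd e1) e2)))),
      fun y => ?_⟩
    simp only [Set.mem_ofPred_eq, unpair_pairBits, List.cons.injEq, and_true, Bool.and_eq_true,
      decide_eq_true_eq]
    constructor
    · rintro ⟨w, hw, hwD⟩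
      refine ⟨w, hw.trans ?_, hw, hwD⟩
      rw [Polynomial.eval_comp, Polynomial.eval_comp]
      refine eval_mono s ?_
      have h2 := hq y
      have h3 := sz_listBool_le y
      have h4 : (dt y).1.length ≤ sz (dt y) := by
        have h5 := length_lt_sz (dt y).1
        have h6 : sz (dt y) = sz (dt y).1 + sz (dt y).2 + 1 := by rw [← sz_pair]
        omega
      have h5 : q.eval (sz y) ≤ q.eval (4 * y.length + 1) := eval_mono q h3
      simp only [Polynomial.eval_add, Polynomial.eval_mul, Polynomial.eval_C, Polynomial.eval_X,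
        Polynomial.eval_one]
      omega
    · rintro ⟨w, _, hw, hwD⟩
      exact ⟨w, hw, hwD⟩
  obtain ⟨D', p', s', hD', hDL'⟩ := inNY_of_inNPT hc hG (hco _ h1)
  -- the bounds
  obtain ⟨B, hBe⟩ : ∃ B : Polynomial ℕ, ∀ n, B.eval n = 4 * n + 1 + szB p0 (p.eval n) + 1 :=
    ⟨Polynomial.C 4 * Polynomial.X + 1 +
      (p * p0.comp p * (Polynomial.C 4 * p + 1 + 1) + 1) + 1, fun n => by
      unfold szB
      simp only [Polynomial.eval_add, Polynomial.eval_mul, Polynomial.eval_C, Polynomial.eval_X,
        Polynomial.eval_one, Polynomial.eval_comp]⟩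
  have e1 : Poly (fun c : List Bool × (List (List Bool) × List Bool) => c.1) :=
    NPC.Poly.fst NPC.Poly.id
  have e2 : Poly (fun c : List Bool × (List (List Bool) × List Bool) => c.2.1) :=
    NPC.Poly.fst (NPC.Poly.snd NPC.Poly.id)
  have e2' : Poly (fun c : List Bool × (List (List Bool) × List Bool) => c.2.2) :=
    NPC.Poly.snd (NPC.Poly.snd NPC.Poly.id)
  have e3 : Poly (fun c : List Bool × (List (List Bool) × List Bool) =>
      bits (c.1, cut (p.eval c.1.length) c.2.1)) :=
    bits_poly.comp (NPC.Poly.pair e1 (cut_poly ((UPoly.length e1).eval p).toPoly e2))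
  refine ⟨fun c => decide (c.2.2.length ≤ s'.eval (bits (c.1, cut (p.eval c.1.length) c.2.1)).length)
      && D' (bits (c.1, cut (p.eval c.1.length) c.2.1),
        (cut (p'.eval (bits (c.1, cut (p.eval c.1.length) c.2.1)).length) c.2.1, c.2.2)),
    p + p'.comp B, s'.comp B, NPC.Poly.and (NPC.Poly.decide_le (NPC.Poly.length e2')
      ((UPoly.length e3).eval s').toPoly) (hD'.comp (NPC.Poly.pair e3 (NPC.Poly.pair
        (cut_poly ((UPoly.length e3).eval p').toPoly e2) e2'))), fun x T hT => ?_⟩
  rw [Polynomial.eval_add, Polynomial.eval_comp, hBe] at hT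
  have hT1 : Comp c G (p.eval x.length) (cut (p.eval x.length) T) := comp_cut hT (by omega)
  have hlen : (bits (x, cut (p.eval x.length) T)).length ≤
      4 * x.length + 1 + szB p0 (p.eval x.length) + 1 := by
    rw [bits_length, sz_pair]
    have h2 := sz_listBool_le x
    have h3 := valid_sz_le hG hT1.1
    omega
  have hT2 : Comp c G (p'.eval (bits (x, cut (p.eval x.length) T)).length)
      (cut (p'.eval (bits (x, cut (p.eval x.length) T)).length) T) := by
    refine comp_cut hT ?_
    have := eval_mono p' hlen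
    omega
  have h2 := hDL' _ _ hT2
  have h3 : bits (x, cut (p.eval x.length) T) ∈ {y | ∃ w : List Bool,
      w.length ≤ s.eval (dt y).1.length ∧ D ((dt y).1, ((dt y).2, w)) = true}ᶜ ↔ x ∈ Lᶜ := by
    rw [Set.mem_compl_iff, Set.mem_compl_iff, hDL _ _ hT1, Set.mem_ofPred_eq, dt_bits]
  rw [← h3, h2]
  simp only [Bool.and_eq_true, decide_eq_true_eq]
  constructor
  · rintro ⟨w, hw, hwD⟩
    refine ⟨w, hw.trans ?_, hw, hwD⟩
    rw [Polynomial.eval_comp, hBe]
    exact eval_mono s' hlen
  · rintro ⟨w, _, hw, hwD⟩
    exact ⟨w, hw, hwD⟩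

/-- **The polynomial hierarchy.** -/
theorem ph_inNY (hc : Poly c) (hG : Good c p0 G) (hco : ∀ L, InNP L → InNPT G Lᶜ) :
    ∀ (k : ℕ) (L : Set (List Bool)), SigmaP k L → InNY c G L := by
  intro k
  induction k with
  | zero => exact fun L hL => inNY_of_inP hL
  | succ k ih =>
    rintro L ⟨M, s, hM, hL⟩
    exact inNY_ex (inNY_compl hc hG hco (ih M hM)) hL

end Pool.Agent.TH682.LP
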