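import Pool.Agent.TH682.LP.Defs

/-!
# Complete lists of mistakes
-/

set_option autoImplicit false

namespace Pool.Agent.TH682.LP

open Pool.Agent.NPC

/-- The entries of length `n`. -/
def rw' (n : ℕ) (T : List (List Bool)) : List (List Bool) :=
  T.filter (fun a => decide (a.length = n))

theorem mem_rw' {n : ℕ} {T : List (List Bool)} {a : List Bool} :
    a ∈ rw' n T ↔ a ∈ T ∧ a.length = n := by
  unfold rw'
  rw [List.mem_filter, decide_eq_true_eq]

theorem rw'_cons (n : ℕ) (a : List Bool) (T : List (List Bool)) :
    rw' n (a :: T) = if a.length = n then a :: rw' n T else rw' n T := by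
  unfold rw'
  rw [List.filter_cons]
  simp only [decide_eq_true_eq]

/-- Mistakes, for strings of different lengths. -/
def MistAll (c : List Bool → List Bool) : List (List Bool) → Prop
  | [] => True
  | a :: T => c (bits (rw' a.length T, a)) ≠ [true] ∧ MistAll c T

theorem mist_rw' {c : List Bool → List Bool} (n : ℕ) : ∀ {T : List (List Bool)}, MistAll c T →
    Mist c (rw' n T)
  | [], _ => trivial
  | a :: T, h => by
    rw [rw'_cons]
    split_ifs with h1
    · subst h1
      exact ⟨h.1, mist_rw' _ h.2⟩
    · exact mist_rw' n h.2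

/-- Valid lists. -/
def Valid (c : List Bool → List Bool) (A : Set (List Bool)) (m : ℕ) (T : List (List Bool)) :
    Prop := (∀ a ∈ T, a ∈ A ∧ a.length < m) ∧ MistAll c T

/-- Complete lists. -/
def Comp (c : List Bool → List Bool) (A : Set (List Bool)) (m : ℕ) (T : List (List Bool)) :
    Prop := Valid c A m T ∧ ∀ a ∈ A, a.length < m → c (bits (rw' a.length T, a)) = [true]

/-- The learner is good. -/
def Good (c : List Bool → List Bool) (p : Polynomial ℕ) (A : Set (List Bool)) : Prop :=
  ∀ (n : ℕ) (l : List (List Bool)), (∀ a ∈ l, a ∈ A ∧ a.length = n) → Mist c l →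
      l.length ≤ p.eval n ∧ ∀ x ∉ A, x.length = n → c (bits (l, x)) ≠ [true]

variable {c : List Bool → List Bool} {p : Polynomial ℕ} {A : Set (List Bool)}

theorem comp_of_max {m : ℕ} {T : List (List Bool)} (hT : Valid c A m T)
    (hmax : ∀ T', Valid c A m T' → T'.length ≤ T.length) : Comp c A m T := by
  refine ⟨hT, fun a ha hm => ?_⟩
  by_contra hcon
  have h1 : Valid c A m (a :: T) := by
    refine ⟨fun b hb => ?_, hcon, hT.2⟩
    rcases List.mem_cons.1 hb with rfl | hb
    · exact ⟨ha, hm⟩
    · exact hT.1 b hb
  have := hmax _ h1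
  simp at this

theorem length_eq_sum (m : ℕ) : ∀ T : List (List Bool), (∀ a ∈ T, a.length < m) →
    T.length ≤ ∑ n ∈ Finset.range m, (rw' n T).length
  | [], _ => by simp
  | a :: T, h => by
    have h1 := length_eq_sum m T (fun b hb => h b (List.mem_cons_of_mem _ hb))
    have h2 : ∀ n, (rw' n (a :: T)).length = (rw' n T).length + if n = a.length then 1 else 0 := by
      intro n
      rw [rw'_cons]
      by_cases h3 : a.length = n
      · simp [h3]
      · simp [h3, Ne.symm h3]
    simp only [h2]
    rw [Finset.sum_add_distrib, Finset.sum_ite_eq', if_pos (Finset.mem_range.2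
      (h a List.mem_cons_self)), List.length_cons]
    omega

theorem valid_length_le (hc : Good c p A) {m : ℕ} {T : List (List Bool)}
    (hT : Valid c A m T) : T.length ≤ m * p.eval m := by
  refine (length_eq_sum m T fun a ha => (hT.1 a ha).2).trans ?_
  have h1 : ∀ n ∈ Finset.range m, (rw' n T).length ≤ p.eval m := by
    intro n hn
    rw [Finset.mem_range] at hn
    have h2 := (hc n (rw' n T) (fun a ha => ⟨(hT.1 a (mem_rw'.1 ha).1).1, (mem_rw'.1 ha).2⟩)
      (mist_rw' n hT.2)).1
    exact h2.trans (eval_mono p hn.le)
  refine (Finset.sum_le_sum h1).trans ?_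
  rw [Finset.sum_const, Finset.card_range, smul_eq_mul]

/-- The part of a list of strings shorter than `m`. -/
def cut (m : ℕ) (T : List (List Bool)) : List (List Bool) :=
  T.filter (fun a => decide (a.length < m))

theorem rw'_cut {m n : ℕ} (hn : n < m) (T : List (List Bool)) : rw' n (cut m T) = rw' n T := by
  unfold rw' cut
  rw [List.filter_filter]
  refine List.filter_congr fun w _ => ?_
  by_cases h : w.length = n
  · simp [h, hn]
  · simp [h]

theorem mistAll_cut (m : ℕ) : ∀ {T : List (List Bool)}, MistAll c T → MistAll c (cut m T)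
  | [], _ => trivial
  | a :: T, h => by
    have h1 : cut m (a :: T) = if a.length < m then a :: cut m T else cut m T := by
      unfold cut
      rw [List.filter_cons]
      simp only [decide_eq_true_eq]
    rw [h1]
    split_ifs with h2
    · refine ⟨?_, mistAll_cut m h.2⟩
      rw [rw'_cut h2]
      exact h.1
    · exact mistAll_cut m h.2

theorem comp_cut {m m' : ℕ} {T : List (List Bool)} (hT : Comp c A m' T) (hm : m ≤ m') :
    Comp c A m (cut m T) := by
  refine ⟨⟨fun a ha => ?_, mistAll_cut m hT.1.2⟩, fun a ha hm1 => ?_⟩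
  · unfold cut at ha
    rw [List.mem_filter, decide_eq_true_eq] at ha
    exact ⟨(hT.1.1 a ha.1).1, ha.2⟩
  · rw [rw'_cut hm1]
    exact hT.2 a ha (by omega)

/-- The answer to a query, according to a list. -/
def ans (c : List Bool → List Bool) (T : List (List Bool)) (q : List Bool) : Bool :=
  decide (c (bits (rw' q.length T, q)) = [true])

/-- **Complete lists give correct answers.** -/
theorem ans_iff (hc : Good c p A) {m : ℕ} {T : List (List Bool)} (hT : Comp c A m T)
    {q : List Bool} (hq : q.length < m) : ans c T q = true ↔ q ∈ A := by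
  unfold ans
  rw [decide_eq_true_eq]
  constructor
  · intro h
    by_contra hcon
    exact (hc q.length (rw' q.length T) (fun a ha => ⟨(hT.1.1 a (mem_rw'.1 ha).1).1,
        (mem_rw'.1 ha).2⟩) (mist_rw' _ hT.1.2)).2 q hcon rfl h
  · intro h
    exact hT.2 q h hq

end Pool.Agent.TH682.LP
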